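import Pool.Agent.Y916.SStm
import Mathlib.Analysis.Polynomial.MahlerMeasure
import Mathlib.RingTheory.Polynomial.IsIntegral

set_option autoImplicit false

/-! Job KAP of project SA (helper916): bounded relations between square roots of polynomials. -/

namespace Pool.Agent.Y201.SA

open Pool.Agent.Y113 Pool.Agent.Y916.Hy Pool.Agent.Y916.Sa

section lift

attribute [local instance] Polynomial.algebra

theorem lift_sqrt (ψ : Polynomial ℤ) (w0 : Polynomial ℚ)
    (h : ψ.map (Int.castRingHom ℚ) = w0 * w0) :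
    ∃ w : Polynomial ℤ, w.map (Int.castRingHom ℚ) = w0 ∧ w * w = ψ := by
  have h1 : IsIntegral (Polynomial ℤ) w0 := by
    apply IsIntegral.of_pow (n := 2) two_pos
    have h2 : w0 ^ 2 = algebraMap (Polynomial ℤ) (Polynomial ℚ) ψ := by
      rw [pow_two, ← h]
      rfl
    rw [h2]
    exact isIntegral_algebraMap
  have h3 : ∀ n, ∃ y : ℤ, (Int.castRingHom ℚ) y = w0.coeff n := by
    intro n
    have h4 : IsIntegral ℤ (w0.coeff n) := h1.coeff n
    obtain ⟨y, hy⟩ := IsIntegrallyClosed.isIntegral_iff.mp h4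
    exact ⟨y, hy⟩
  have h5 : w0 ∈ Polynomial.lifts (Int.castRingHom ℚ) := by
    rw [Polynomial.lifts_iff_coeff_lifts]
    exact h3
  obtain ⟨w, hw⟩ := (Polynomial.mem_lifts _).mp h5
  refine ⟨w, hw, ?_⟩
  apply Polynomial.map_injective (Int.castRingHom ℚ) Int.cast_injective
  rw [Polynomial.map_mul, hw, h]

end lift

/-- the Mahler measure of an integer polynomial -/
noncomputable def mm (P : Polynomial ℤ) : ℝ := (P.map (Int.castRingHom ℂ)).mahlerMeasure

theorem mm_mul (P Q : Polynomial ℤ) : mm (P * Q) = mm P * mm Q := by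
  rw [mm, Polynomial.map_mul, Polynomial.mahlerMeasure_mul]
  rfl

theorem mm_nonneg (P : Polynomial ℤ) : 0 ≤ mm P := Polynomial.mahlerMeasure_nonneg _

theorem mm_C (c : ℤ) : mm (Polynomial.C c) = |(c : ℝ)| := by
  rw [mm, Polynomial.map_C, Polynomial.mahlerMeasure_const]
  simp

theorem mm_prod {ι : Type} (T : Finset ι) (Φ : ι → Polynomial ℤ) :
    mm (∏ j ∈ T, Φ j) = ∏ j ∈ T, mm (Φ j) := by
  classical
  induction T using Finset.induction_on with
  | empty =>
    rw [Finset.prod_empty, Finset.prod_empty, ← Polynomial.C_1, mm_C]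
    simp
  | insert a s ha ih =>
    rw [Finset.prod_insert ha, Finset.prod_insert ha, mm_mul, ih]

theorem natDegree_map_C (P : Polynomial ℤ) :
    (P.map (Int.castRingHom ℂ)).natDegree = P.natDegree :=
  Polynomial.natDegree_map_eq_of_injective Int.cast_injective P

theorem mm_le {P : Polynomial ℤ} {n : ℕ} {H : ℝ} (hn : P.natDegree ≤ n)
    (hH : ∀ l, |((P.coeff l : ℤ) : ℝ)| ≤ H) : mm P ≤ (n + 1) * H := by
  refine (Polynomial.mahlerMeasure_le_sum_norm_coeff _).trans ?_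
  rw [Polynomial.sum]
  refine (Finset.sum_le_card_nsmul _ _ H fun i _ => ?_).trans ?_
  · rw [Polynomial.coeff_map]
    simpa using hH i
  · rw [nsmul_eq_mul]
    have h0 : 0 ≤ H := (abs_nonneg _).trans (hH 0)
    refine mul_le_mul_of_nonneg_right ?_ h0
    have h1 := Polynomial.card_supp_le_succ_natDegree (P.map (Int.castRingHom ℂ))
    rw [natDegree_map_C] at h1
    have h2 : (P.map (Int.castRingHom ℂ)).support.card ≤ n + 1 := by omega
    exact_mod_cast h2

theorem coeff_le (P : Polynomial ℤ) (l : ℕ) :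
    |((P.coeff l : ℤ) : ℝ)| ≤ 2 ^ P.natDegree * mm P := by
  have h1 := Polynomial.norm_coeff_le_choose_mul_mahlerMeasure l (P.map (Int.castRingHom ℂ))
  rw [Polynomial.coeff_map, natDegree_map_C] at h1
  have h2 : ‖(Int.castRingHom ℂ) (P.coeff l)‖ = |((P.coeff l : ℤ) : ℝ)| := by
    simp
  rw [h2] at h1
  refine h1.trans (mul_le_mul_of_nonneg_right ?_ (mm_nonneg P))
  have h3 := Nat.choose_le_two_pow P.natDegree l
  exact_mod_cast h3

theorem ps_mul (P Q : Polynomial ℤ) : ps (P * Q) = ps P * ps Q := by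
  simp [ps]

theorem ps_C (c : ℤ) : ps (Polynomial.C c) = PowerSeries.C (c : ℚ) := by
  rw [ps, Polynomial.map_C, Polynomial.coe_C]
  rfl

theorem ps_prod {ι : Type} (T : Finset ι) (Φ : ι → Polynomial ℤ) :
    ps (∏ j ∈ T, Φ j) = ∏ j ∈ T, ps (Φ j) := by
  classical
  induction T using Finset.induction_on with
  | empty => simp [ps]
  | insert a s ha ih => rw [Finset.prod_insert ha, Finset.prod_insert ha, ps_mul, ih]

theorem constantCoeff_ps (P : Polynomial ℤ) :
    PowerSeries.constantCoeff (ps P) = ((P.coeff 0 : ℤ) : ℚ) := by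
  rw [ps, ← PowerSeries.coeff_zero_eq_constantCoeff_apply, Polynomial.coeff_coe,
    Polynomial.coeff_map]
  rfl

theorem t_kap (hrt : S_rt) : S_kap := by
  intro n N
  refine ⟨(2 * n + 2) * (N + 1), ?_⟩
  intro H ι _ T i Φ hcard hΦ hsq
  classical
  have hT : T.card ≤ N := (Finset.card_le_univ T).trans hcard
  set Ψ : Polynomial ℤ := ∏ j ∈ T, Φ j with hΨ
  have hΨ0 : Ψ.coeff 0 = ∏ j ∈ T, (Φ j).coeff 0 := by
    rw [hΨ, Polynomial.coeff_zero_prod]
  have hM : 0 < Ψ.coeff 0 := by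
    rw [hΨ0]
    exact Finset.prod_pos fun j _ => (hΦ j).1
  have hi0 : 0 < (Φ i).coeff 0 := (hΦ i).1
  obtain ⟨c, hc⟩ : ∃ c : ℤ, c = (Φ i * Ψ).coeff 0 := ⟨_, rfl⟩
  have hc' : c = (Φ i).coeff 0 * Ψ.coeff 0 := by rw [hc, Polynomial.mul_coeff_zero]
  have hc0 : 0 < c := by rw [hc']; exact mul_pos hi0 hM
  -- the square root
  obtain ⟨w, hw2, hw0⟩ : ∃ w : Polynomial ℤ, w * w = Polynomial.C c * (Φ i * Ψ) ∧
      w.coeff 0 = c := by
    obtain ⟨w0, hw0⟩ := hsq
    obtain ⟨w, -, hw⟩ := lift_sqrt (Polynomial.C c * (Φ i * Ψ)) w0 (by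
      rw [← hw0, Polynomial.map_mul, Polynomial.map_C, hc]
      rfl)
    have h1 : w.coeff 0 * w.coeff 0 = c * c := by
      have h2 := congrArg (fun P : Polynomial ℤ => P.coeff 0) hw
      simp only [Polynomial.mul_coeff_zero, Polynomial.coeff_C_zero] at h2
      rw [h2, ← hc']
    rcases mul_self_eq_mul_self_iff.mp h1 with h2 | h2
    · exact ⟨w, hw, h2⟩
    · exact ⟨-w, by rw [neg_mul_neg, hw], by rw [Polynomial.coeff_neg, h2, neg_neg]⟩
  -- sizes
  have hHi : ∀ j, (Φ j).coeff 0 ≤ H := fun j => (le_abs_self _).trans ((hΦ j).2.2 0)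
  have hMle : Ψ.coeff 0 ≤ ((H : ℤ) + 2) ^ N := by
    rw [hΨ0]
    have h1 : ∏ j ∈ T, (Φ j).coeff 0 ≤ ∏ _j ∈ T, ((H : ℤ) + 2) := by
      refine Finset.prod_le_prod (fun j _ => (hΦ j).1.le) fun j _ => ?_
      have := hHi j
      omega
    rw [Finset.prod_const] at h1
    exact h1.trans (pow_le_pow_right₀ (by omega) hT)
  have hdeg : w.natDegree ≤ n * (N + 1) := by
    have h1 : (w * w).natDegree = w.natDegree + w.natDegree := by
      have hwne : w ≠ 0 := by
        intro h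
        rw [h, Polynomial.coeff_zero] at hw0
        omega
      exact Polynomial.natDegree_mul hwne hwne
    have h2 : (w * w).natDegree ≤ n * (N + 1) := by
      rw [hw2]
      refine (Polynomial.natDegree_C_mul_le _ _).trans (Polynomial.natDegree_mul_le.trans ?_)
      have h3 : Ψ.natDegree ≤ ∑ j ∈ T, (Φ j).natDegree := Polynomial.natDegree_prod_le _ _
      have h4 : ∑ j ∈ T, (Φ j).natDegree ≤ T.card • n :=
        Finset.sum_le_card_nsmul _ _ _ fun j _ => (hΦ j).2.1
      have h5 : T.card • n ≤ n * N := by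
        rw [smul_eq_mul, mul_comm]
        exact Nat.mul_le_mul_left _ hT
      have h6 := (hΦ i).2.1
      rw [Nat.mul_add, mul_one]
      omega
    omega
  have hH2 : (1 : ℝ) ≤ (H : ℝ) + 2 := by
    have : (0 : ℝ) ≤ H := Nat.cast_nonneg H
    linarith
  have hmm : ∀ j, mm (Φ j) ≤ ((H : ℝ) + 2) ^ (n + 1) := by
    intro j
    refine (mm_le (H := H) (hΦ j).2.1 fun l => ?_).trans ?_
    · have := (hΦ j).2.2 l
      exact_mod_cast this
    · have h1 : ((n : ℝ) + 1) ≤ 2 ^ n := by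
        have : n + 1 ≤ 2 ^ n := Nat.lt_two_pow_self
        exact_mod_cast this
      have h2 : (2 : ℝ) ^ n ≤ ((H : ℝ) + 2) ^ n :=
        pow_le_pow_left₀ (by norm_num) (by linarith [(Nat.cast_nonneg H : (0 : ℝ) ≤ H)]) _
      rw [pow_succ]
      have h3 : (0 : ℝ) ≤ H := Nat.cast_nonneg H
      refine mul_le_mul (h1.trans h2) (by linarith) h3 (by positivity)
  have hmw : mm w * mm w ≤ ((H : ℝ) + 2) ^ ((n + 2) * (N + 1)) := by
    rw [← mm_mul, hw2, mm_mul, mm_C, mm_mul, hΨ, mm_prod]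
    have h1 : |(c : ℝ)| ≤ ((H : ℝ) + 2) ^ (N + 1) := by
      rw [abs_of_pos (by exact_mod_cast hc0)]
      have h2 : c ≤ ((H : ℤ) + 2) ^ (N + 1) := by
        rw [hc', pow_succ, mul_comm]
        refine mul_le_mul hMle ?_ hi0.le (by positivity)
        have := hHi i
        omega
      exact_mod_cast h2
    have h3 : ∏ j ∈ T, mm (Φ j) ≤ (((H : ℝ) + 2) ^ (n + 1)) ^ N := by
      refine (Finset.prod_le_prod (fun j _ => mm_nonneg _) fun j _ => hmm j).trans ?_
      rw [Finset.prod_const]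
      exact pow_le_pow_right₀ (one_le_pow₀ hH2) hT
    have h4 : (0 : ℝ) ≤ ∏ j ∈ T, mm (Φ j) := Finset.prod_nonneg fun j _ => mm_nonneg _
    calc |(c : ℝ)| * (mm (Φ i) * ∏ j ∈ T, mm (Φ j))
        ≤ ((H : ℝ) + 2) ^ (N + 1) * (((H : ℝ) + 2) ^ (n + 1) * (((H : ℝ) + 2) ^ (n + 1)) ^ N) := by
          refine mul_le_mul h1 (mul_le_mul (hmm i) h3 h4 (by positivity))
            (mul_nonneg (mm_nonneg _) h4) (by positivity)
      _ = ((H : ℝ) + 2) ^ ((n + 2) * (N + 1)) := by
          rw [← pow_mul, ← pow_add, ← pow_add]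
          congr 1
          ring
  have hmw1 : mm w ≤ ((H : ℝ) + 2) ^ ((n + 2) * (N + 1)) := by
    rcases le_total (mm w) 1 with h | h
    · exact h.trans (one_le_pow₀ hH2)
    · refine le_trans ?_ hmw
      nlinarith
  refine ⟨Ψ.coeff 0, w, hM, ?_, ?_, ?_, ?_⟩
  · refine hMle.trans (pow_le_pow_right₀ (by omega) ?_)
    nlinarith
  · refine hdeg.trans (Nat.mul_le_mul_right _ ?_)
    omega
  · intro l
    have h1 : |((w.coeff l : ℤ) : ℝ)| ≤ ((H : ℝ) + 2) ^ ((2 * n + 2) * (N + 1)) := by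
      refine (coeff_le w l).trans ?_
      have h2 : (2 : ℝ) ^ w.natDegree ≤ ((H : ℝ) + 2) ^ (n * (N + 1)) := by
        refine (pow_le_pow_right₀ (by norm_num) hdeg).trans ?_
        exact pow_le_pow_left₀ (by norm_num) (by linarith [(Nat.cast_nonneg H : (0 : ℝ) ≤ H)]) _
      calc (2 : ℝ) ^ w.natDegree * mm w
          ≤ ((H : ℝ) + 2) ^ (n * (N + 1)) * ((H : ℝ) + 2) ^ ((n + 2) * (N + 1)) :=
            mul_le_mul h2 hmw1 (mm_nonneg _) (by positivity)
        _ = ((H : ℝ) + 2) ^ ((2 * n + 2) * (N + 1)) := by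
            rw [← pow_add]
            congr 1
            ring
    exact_mod_cast h1
  · -- the identity
    have hRi := hrt (Φ i) hi0
    set Q : PowerSeries ℚ := ∏ j ∈ T, Rt (Φ j) with hQ
    have hQ2 : Q ^ 2 * ps Ψ = PowerSeries.C ((Ψ.coeff 0 : ℤ) : ℚ) := by
      rw [hQ, hΨ, ps_prod, ← Finset.prod_pow, ← Finset.prod_mul_distrib, ← hΨ, hΨ0]
      rw [Finset.prod_congr rfl fun j _ => (hrt (Φ j) (hΦ j).1).1]
      rw [Int.cast_prod, map_prod]
    have hQ0 : PowerSeries.constantCoeff Q = 1 := by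
      rw [hQ, map_prod]
      exact Finset.prod_eq_one fun j _ => (hrt (Φ j) (hΦ j).1).2
    set a : PowerSeries ℚ := ps (Polynomial.C (Ψ.coeff 0) * Φ i) * Rt (Φ i) with ha
    set b : PowerSeries ℚ := ps w * Q with hb
    have hab : (a - b) * (a + b) = 0 := by
      have h1 : a * a = PowerSeries.C ((Ψ.coeff 0 : ℤ) : ℚ) * PowerSeries.C ((Ψ.coeff 0 : ℤ) : ℚ) *
          ps (Φ i) * PowerSeries.C (((Φ i).coeff 0 : ℤ) : ℚ) := by
        rw [ha, ps_mul, ps_C, ← hRi.1]
        ring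
      have h2 : b * b = PowerSeries.C (c : ℚ) * ps (Φ i) * PowerSeries.C ((Ψ.coeff 0 : ℤ) : ℚ) := by
        have h3 : ps w * ps w = PowerSeries.C (c : ℚ) * (ps (Φ i) * ps Ψ) := by
          rw [← ps_mul, hw2, ps_mul, ps_C, ps_mul]
        calc b * b = (ps w * ps w) * Q ^ 2 := by rw [hb]; ring
          _ = PowerSeries.C (c : ℚ) * ps (Φ i) * (Q ^ 2 * ps Ψ) := by rw [h3]; ring
          _ = _ := by rw [hQ2]
      have h3 : PowerSeries.C (c : ℚ) = PowerSeries.C (((Φ i).coeff 0 : ℤ) : ℚ) *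
          PowerSeries.C ((Ψ.coeff 0 : ℤ) : ℚ) := by
        rw [hc', Int.cast_mul, map_mul]
      have h4 : (a - b) * (a + b) = a * a - b * b := by ring
      rw [h4, h1, h2, h3]
      ring
    have ha0 : PowerSeries.constantCoeff a = (c : ℚ) := by
      rw [ha, map_mul, constantCoeff_ps, hRi.2, mul_one, Polynomial.coeff_C_mul, hc', mul_comm]
    have hb0 : PowerSeries.constantCoeff b = (c : ℚ) := by
      rw [hb, map_mul, constantCoeff_ps, hQ0, mul_one, hw0]
    rcases mul_eq_zero.mp hab with h | h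
    · exact sub_eq_zero.mp h
    · exfalso
      have h1 := congrArg PowerSeries.constantCoeff h
      rw [map_add, ha0, hb0, map_zero] at h1
      have h2 : (0 : ℚ) < c := by exact_mod_cast hc0
      linarith

end Pool.Agent.Y201.SA
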